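import Pool.Agent.Q127.DJ.Stm

set_option autoImplicit false

namespace Pool.Agent.Q42.DJ.HIL

open Filter Topology
open scoped RealInnerProductSpace

abbrev H := lp (fun _ : ℤ => ℝ) 2

theorem inner_H (f g : H) : ⟪f, g⟫ = ∑' n : ℤ, f n * g n := by
  rw [lp.inner_eq_tsum]
  refine tsum_congr fun n => ?_
  simp [mul_comm]

/-- element from a square summable function -/
def mk (c : ℤ → ℝ) (h : Summable fun n => c n ^ 2) : H := ⟨c, memℓp_gen (by simpa using h)⟩

theorem sq_summable (f : H) : Summable fun n : ℤ => (f n) ^ 2 := by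
  have := (memℓp_gen_iff (p := 2) (by norm_num)).1 (lp.memℓp f)
  simpa using this

/-- the shift -/
noncomputable def shl (j : ℤ) : H →ₗ[ℝ] H where
  toFun f := mk (fun n => f (n - j)) ((Equiv.subRight j).summable_iff.2 (sq_summable f))
  map_add' f g := by
    ext n
    rfl
  map_smul' c f := by
    ext n
    rfl

theorem shl_apply (j : ℤ) (f : H) (n : ℤ) : (shl j f : H) n = f (n - j) := rfl

theorem inner_shl (j : ℤ) (f g : H) : ⟪shl j f, shl j g⟫ = ⟪f, g⟫ := by
  rw [inner_H, inner_H]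
  exact (Equiv.subRight j).tsum_eq (fun n => f n * g n)

noncomputable def sh (j : ℤ) : H →ₗᵢ[ℝ] H where
  toLinearMap := shl j
  norm_map' f := by
    have h := inner_shl j f f
    rw [real_inner_self_eq_norm_sq, real_inner_self_eq_norm_sq] at h
    exact (sq_eq_sq₀ (norm_nonneg _) (norm_nonneg _)).1 h

theorem sh_apply (j : ℤ) (f : H) (n : ℤ) : (sh j f : H) n = f (n - j) := rfl

theorem inner_sh (j : ℤ) (f g : H) : ⟪sh j f, sh j g⟫ = ⟪f, g⟫ := inner_shl j f g

theorem sh_sh (i j : ℤ) (f : H) : sh i (sh j f) = sh (i + j) f := by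
  ext n
  simp only [sh_apply]
  ring_nf

theorem main (a b : H) (hb0 : b 0 ≠ 0) (hbn : ∀ n : ℤ, n < 0 → b n = 0) (hab : ∀ j : ℤ, ⟪a, sh j b⟫ = 0) :
    a 0 = 0 := by
  obtain ⟨F, hF⟩ : ∃ F : Submodule ℝ H, F = (Submodule.span ℝ (Set.range fun j : ℕ => sh (j : ℤ) b)).topologicalClosure :=
    ⟨_, rfl⟩
  obtain ⟨F1, hF1⟩ : ∃ F : Submodule ℝ H,
    F = (Submodule.span ℝ (Set.range fun j : ℕ => sh ((j : ℤ) + 1) b)).topologicalClosure := ⟨_, rfl⟩
  have hFc : IsClosed (F : Set H) := by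
    rw [hF]; exact Submodule.isClosed_topologicalClosure _
  have hF1c : IsClosed (F1 : Set H) := by
    rw [hF1]; exact Submodule.isClosed_topologicalClosure _
  -- a closed condition on generators of F
  have hFind : ∀ (K : Submodule ℝ H), IsClosed (K : Set H) → (∀ j : ℕ, sh (j : ℤ) b ∈ K) → F ≤ K := by
    intro K hK h
    rw [hF]
    refine Submodule.topologicalClosure_minimal _ ?_ hK
    rw [Submodule.span_le]
    rintro _ ⟨j, rfl⟩
    exact h j
  have hF1ind : ∀ (K : Submodule ℝ H), IsClosed (K : Set H) → (∀ j : ℕ, sh ((j : ℤ) + 1) b ∈ K) → F1 ≤ K := by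
    intro K hK h
    rw [hF1]
    refine Submodule.topologicalClosure_minimal _ ?_ hK
    rw [Submodule.span_le]
    rintro _ ⟨j, rfl⟩
    exact h j
  have hbF : ∀ j : ℕ, sh (j : ℤ) b ∈ F := fun j => by
    rw [hF]; exact Submodule.le_topologicalClosure _ (Submodule.subset_span ⟨j, rfl⟩)
  have hbF1 : ∀ j : ℕ, sh ((j : ℤ) + 1) b ∈ F1 := fun j => by
    rw [hF1]; exact Submodule.le_topologicalClosure _ (Submodule.subset_span ⟨j, rfl⟩)
  have hF1F : F1 ≤ F := hF1ind F hFc fun j => by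
    have := hbF (j + 1)
    push_cast at this
    exact this
  -- members of F1 vanish at 0
  have hzero : ∀ f ∈ F1, (f : H) 0 = 0 := by
    intro f hf
    have h1 : F1 ≤ (LinearMap.ker (innerSL ℝ (lp.single 2 (0 : ℤ) (1 : ℝ) : H) : H →L[ℝ] ℝ).toLinearMap) := by
      refine hF1ind _ ?_ ?_
      · exact (innerSL ℝ (lp.single 2 (0 : ℤ) (1 : ℝ) : H) : H →L[ℝ] ℝ).isClosed_ker
      · intro j
        rw [LinearMap.mem_ker]
        show ⟪(lp.single 2 (0 : ℤ) (1 : ℝ) : H), sh ((j : ℤ) + 1) b⟫ = 0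
        rw [lp.inner_single_left]
        simp only [sh_apply]
        rw [hbn _ (by omega)]
        simp
    have h2 := h1 hf
    rw [LinearMap.mem_ker] at h2
    have h3 : ⟪(lp.single 2 (0 : ℤ) (1 : ℝ) : H), f⟫ = 0 := h2
    rw [lp.inner_single_left] at h3
    simpa using h3
  haveI : CompleteSpace F1 := hF1c.completeSpace_coe
  obtain ⟨p, hp⟩ : ∃ p : H, p = F1.starProjection b := ⟨_, rfl⟩
  have hpF1 : p ∈ F1 := by rw [hp]; exact Submodule.starProjection_apply_mem _ _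
  obtain ⟨u, hu⟩ : ∃ u : H, u = b - p := ⟨_, rfl⟩
  have huF : u ∈ F := by
    rw [hu]
    refine F.sub_mem ?_ (hF1F hpF1)
    have := hbF 0
    have h0 : sh ((0 : ℕ) : ℤ) b = b := by
      ext n
      rw [sh_apply]
      simp
    rwa [h0] at this
  have huo : ∀ f ∈ F1, ⟪f, u⟫ = 0 := by
    intro f hf
    have : b - p ∈ F1ᗮ := by rw [hp]; exact Submodule.sub_starProjection_mem_orthogonal b
    rw [hu]
    exact (Submodule.mem_orthogonal _ _).1 this f hf
  have hu0 : u 0 ≠ 0 := by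
    have : (u : H) 0 = b 0 - p 0 := by rw [hu]; rfl
    rw [this, hzero p hpF1, sub_zero]
    exact hb0
  have hun : u ≠ 0 := by
    intro h
    rw [h] at hu0
    exact hu0 rfl
  -- shifts of F
  have hshF : ∀ j : ℕ, ∀ f ∈ F, sh ((j : ℤ) + 1) f ∈ F1 := by
    intro j f hf
    have h1 : F ≤ F1.comap (sh ((j : ℤ) + 1)).toLinearMap := by
      refine hFind _ ?_ ?_
      · exact hF1c.preimage (sh ((j : ℤ) + 1)).continuous
      · intro i
        rw [Submodule.mem_comap]
        show sh ((j : ℤ) + 1) (sh (i : ℤ) b) ∈ F1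
        rw [sh_sh]
        have := hbF1 (j + i)
        have e : ((j + i : ℕ) : ℤ) + 1 = (j : ℤ) + 1 + i := by push_cast; ring
        rwa [e] at this
    exact h1 hf
  have huu : ∀ j : ℕ, ⟪sh ((j : ℤ) + 1) u, u⟫ = 0 := fun j => huo _ (hshF j u huF)
  have hau : ∀ j : ℤ, ⟪a, sh j u⟫ = 0 := by
    intro j
    have h1 : F ≤ (LinearMap.ker ((innerSL ℝ a : H →L[ℝ] ℝ).comp (sh j).toContinuousLinearMap).toLinearMap) := by
      refine hFind _ ?_ ?_
      · exact ((innerSL ℝ a : H →L[ℝ] ℝ).comp (sh j).toContinuousLinearMap).isClosed_ker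
      · intro i
        rw [LinearMap.mem_ker]
        show ⟪a, sh j (sh (i : ℤ) b)⟫ = 0
        rw [sh_sh]
        exact hab _
    have h2 := h1 huF
    rw [LinearMap.mem_ker] at h2
    exact h2
  have hne : ‖u‖ ≠ 0 := norm_ne_zero_iff.2 hun
  obtain ⟨v, hv⟩ : ∃ v : ℤ → H, v = fun j => ‖u‖⁻¹ • sh j u := ⟨_, rfl⟩
  have hcross : ∀ i j : ℤ, i ≠ j → ⟪sh i u, sh j u⟫ = 0 := by
    have key : ∀ i j : ℤ, j < i → ⟪sh i u, sh j u⟫ = 0 := by
      intro i j hij
      have h1 := inner_sh j (sh (i - j) u) u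
      rw [sh_sh] at h1
      rw [show j + (i - j) = i by ring] at h1
      rw [h1]
      have h2 := huu (i - j - 1).toNat
      rw [show (((i - j - 1).toNat : ℕ) : ℤ) + 1 = i - j by omega] at h2
      exact h2
    intro i j hij
    rcases lt_or_gt_of_ne hij with h | h
    · rw [real_inner_comm]
      exact key j i h
    · exact key i j h
  have hvo : Orthonormal ℝ v := by
    constructor
    · intro j
      rw [hv]
      simp only [norm_smul, norm_inv, norm_norm, LinearIsometry.norm_map]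
      exact inv_mul_cancel₀ hne
    · intro i j hij
      rw [hv]
      simp only [inner_smul_left, inner_smul_right]
      rw [hcross i j hij]
      simp
  obtain ⟨e, he⟩ : ∃ e : H, e = lp.single 2 (0 : ℤ) (1 : ℝ) := ⟨_, rfl⟩
  have hee : ‖e‖ ^ 2 = 1 := by
    rw [← real_inner_self_eq_norm_sq, he, lp.inner_single_left]
    simp
  have hfe : ∀ f : H, ⟪f, e⟫ = f 0 := by
    intro f
    rw [he, lp.inner_single_right]
    simp
  have hve : ∀ j, ⟪v j, e⟫ = ‖u‖⁻¹ * u (-j) := by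
    intro j
    rw [hfe, hv]
    show ‖u‖⁻¹ • (sh j u : H) 0 = _
    rw [sh_apply, zero_sub]
    rfl
  have hsum : HasSum (fun j : ℤ => ⟪v j, e⟫ ^ 2) 1 := by
    have h1 : HasSum (fun n : ℤ => (u n) ^ 2) (‖u‖ ^ 2) := by
      have h2 := (sq_summable u).hasSum
      have h3 : ∑' n : ℤ, (u n) ^ 2 = ‖u‖ ^ 2 := by
        rw [← real_inner_self_eq_norm_sq, inner_H]
        exact tsum_congr fun n => sq _
      rwa [h3] at h2
    have h2 := ((Equiv.neg ℤ).hasSum_iff.2 h1).mul_left (‖u‖⁻¹ ^ 2)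
    have h3 : ‖u‖⁻¹ ^ 2 * ‖u‖ ^ 2 = 1 := by
      rw [← mul_pow, inv_mul_cancel₀ hne, one_pow]
    rw [h3] at h2
    have h4 : (fun j : ℤ => ⟪v j, e⟫ ^ 2) = fun j => ‖u‖⁻¹ ^ 2 * (u (-j)) ^ 2 := by
      funext j
      rw [hve, mul_pow]
    rw [h4]
    exact h2
  have hbound : ∀ s : Finset ℤ, (a 0) ^ 2 ≤ ‖a‖ ^ 2 * (1 - ∑ j ∈ s, ⟪v j, e⟫ ^ 2) := by
    intro s
    obtain ⟨y, hy⟩ : ∃ y : H, y = ∑ j ∈ s, ⟪v j, e⟫ • v j := ⟨_, rfl⟩
    have h1 : ⟪e, y⟫ = ∑ j ∈ s, ⟪v j, e⟫ ^ 2 := by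
      rw [hy, inner_sum]
      refine Finset.sum_congr rfl fun j _ => ?_
      rw [real_inner_smul_right, real_inner_comm, sq]
    have h2 : ‖y‖ ^ 2 = ∑ j ∈ s, ⟪v j, e⟫ ^ 2 := by
      rw [← real_inner_self_eq_norm_sq, hy, hvo.inner_sum]
      refine Finset.sum_congr rfl fun j _ => ?_
      simp [sq]
    have h3 : ‖e - y‖ ^ 2 = 1 - ∑ j ∈ s, ⟪v j, e⟫ ^ 2 := by
      rw [norm_sub_sq_real, hee, h1, h2]
      ring
    have h4 : ⟪a, y⟫ = 0 := by
      rw [hy, inner_sum]
      refine Finset.sum_eq_zero fun j _ => ?_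
      rw [real_inner_smul_right, hv]
      simp only [real_inner_smul_right]
      rw [hau j]
      simp
    have h5 : a 0 = ⟪a, e - y⟫ := by
      rw [inner_sub_right, h4, sub_zero, hfe]
    rw [← h3, h5, ← mul_pow]
    have h6 := abs_real_inner_le_norm a (e - y)
    rw [← sq_abs]
    exact pow_le_pow_left₀ (abs_nonneg _) h6 2
  have hlim : Tendsto (fun s : Finset ℤ => ‖a‖ ^ 2 * (1 - ∑ j ∈ s, ⟪v j, e⟫ ^ 2)) atTop (𝓝 (‖a‖ ^ 2 * (1 - 1))) :=
    (tendsto_const_nhds.sub hsum).const_mul _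
  have h7 : (a 0) ^ 2 ≤ ‖a‖ ^ 2 * (1 - 1) := ge_of_tendsto' hlim hbound
  rw [sub_self, mul_zero] at h7
  exact pow_eq_zero_iff (two_ne_zero) |>.1 (le_antisymm h7 (sq_nonneg _))

/-- extension by zero -/
def ext0 (α : ℕ → ℝ) (n : ℤ) : ℝ := if 0 ≤ n then α n.toNat else 0

theorem ext0_nat (α : ℕ → ℝ) (k : ℕ) : ext0 α (k : ℤ) = α k := by
  unfold ext0
  rw [if_pos (Int.natCast_nonneg k), Int.toNat_natCast]

theorem ext0_neg (α : ℕ → ℝ) (n : ℤ) (h : n < 0) : ext0 α n = 0 := by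
  unfold ext0
  rw [if_neg (not_le.2 h)]

theorem ext0_sum (α : ℕ → ℝ) (h : Summable fun k => α k ^ 2) : Summable fun n : ℤ => ext0 α n ^ 2 := by
  have hinj : Function.Injective (fun k : ℕ => (k : ℤ)) := Nat.cast_injective
  refine (hinj.summable_iff ?_).1 ?_
  · intro n hn
    have : n < 0 := by
      by_contra h0
      exact hn ⟨n.toNat, by simp; omega⟩
    rw [ext0_neg α n this]
    norm_num
  · refine h.congr fun k => ?_
    simp only [Function.comp]
    rw [ext0_nat]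

theorem hil : Pool.Agent.Q127.DJ.S_hil := by
  intro α β hα hβ hα0 hβ0
  by_contra hcon
  push Not at hcon
  have h0 := main (mk (ext0 α) (ext0_sum α hα)) (mk (ext0 β) (ext0_sum β hβ)) ?_ ?_ ?_
  · exact hα0 (by
      have : ext0 α 0 = α 0 := ext0_nat α 0
      rw [← this]
      exact h0)
  · show ext0 β 0 ≠ 0
    have : ext0 β 0 = β 0 := ext0_nat β 0
    rw [this]
    exact hβ0
  · intro n hn
    exact ext0_neg β n hn
  · intro j
    rw [inner_H]
    show ∑' n : ℤ, ext0 α n * ext0 β (n - j) = 0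
    rcases le_or_gt 0 j with hj | hj
    · obtain ⟨J, rfl⟩ := Int.eq_ofNat_of_zero_le hj
      have hinj : Function.Injective (fun k : ℕ => (k : ℤ) + J) := fun x y h => by simpa using h
      have h1 := hinj.tsum_eq (f := fun n : ℤ => ext0 α n * ext0 β (n - (J : ℤ))) (by
        intro n hn
        rw [Function.mem_support] at hn
        have : 0 ≤ n - (J : ℤ) := by
          by_contra h
          exact hn (by rw [ext0_neg β _ (not_le.1 h), mul_zero])
        exact ⟨(n - J).toNat, by simp; omega⟩)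
      rw [← h1, ← (hcon J).2]
      refine tsum_congr fun k => ?_
      rw [show (k : ℤ) + J - J = (k : ℤ) by ring, ext0_nat, show (k : ℤ) + J = ((k + J : ℕ) : ℤ) by push_cast; ring,
        ext0_nat]
    · obtain ⟨J, hJ⟩ : ∃ J : ℕ, j = -(J : ℤ) := ⟨(-j).toNat, by omega⟩
      have hinj : Function.Injective (fun k : ℕ => (k : ℤ)) := Nat.cast_injective
      have h1 := hinj.tsum_eq (f := fun n : ℤ => ext0 α n * ext0 β (n - j)) (by
        intro n hn
        rw [Function.mem_support] at hn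
        have : 0 ≤ n := by
          by_contra h
          exact hn (by rw [ext0_neg α _ (not_le.1 h), zero_mul])
        exact ⟨n.toNat, by simp; omega⟩)
      rw [← h1, ← (hcon J).1]
      refine tsum_congr fun k => ?_
      rw [hJ, ext0_nat, show (k : ℤ) - -(J : ℤ) = ((k + J : ℕ) : ℤ) by push_cast; ring, ext0_nat]

end Pool.Agent.Q42.DJ.HIL
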